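import Mathlib

/-!
# MP_ae772b_al

There is a finite-dimensional Hopf algebra `H` (over any field of characteristic two) such that the
kernel `K` of the restriction functor `StMod(D(H)) → StMod(H)` is not the localizing subcategory
generated by its finite-dimensional objects.  Here `H = 𝕜[ε]/(ε²)` with `ε` primitive.

Localizing subcategories of `StMod(A)` are described by the classes of `A`-modules which contain the
projective modules, satisfy the two-out-of-three property for short exact sequences and are closed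
under arbitrary direct sums.
-/

open TensorProduct DirectSum

namespace Pool.Agent.Results.MP_ae772b_al.KernelNotCompactlyGenerated

/-! ## The Drinfeld double -/

section Double

variable (𝕜 H : Type) [Field 𝕜] [Ring H] [HopfAlgebra 𝕜 H]

/-- The convolution product of the dual space `H^*`: `(p * q)(h) = ∑ p(h₁) q(h₂)`. -/
noncomputable def conv (p q : Module.Dual 𝕜 H) : Module.Dual 𝕜 H :=
  (LinearMap.mul' 𝕜 𝕜) ∘ₗ (TensorProduct.map p q) ∘ₗ Coalgebra.comul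

/-- The generator of the tensor algebra on `H × H^*` given by `h ∈ H`. -/
noncomputable def genL (h : H) : TensorAlgebra 𝕜 (H × Module.Dual 𝕜 H) :=
  TensorAlgebra.ι 𝕜 ((h, 0) : H × Module.Dual 𝕜 H)

/-- The generator of the tensor algebra on `H × H^*` given by `p ∈ H^*`. -/
noncomputable def genR (p : Module.Dual 𝕜 H) : TensorAlgebra 𝕜 (H × Module.Dual 𝕜 H) :=
  TensorAlgebra.ι 𝕜 ((0, p) : H × Module.Dual 𝕜 H)

/-- The defining relations of the Drinfeld double: `H` and `H^*` (with the convolution product) are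
subalgebras, and `∑ h₁ · q(h₂ -) = ∑ q(- h₁) · h₂` for `h ∈ H` and `q ∈ H^*`. -/
inductive DoubleRel : TensorAlgebra 𝕜 (H × Module.Dual 𝕜 H) →
    TensorAlgebra 𝕜 (H × Module.Dual 𝕜 H) → Prop
  | one : DoubleRel (genL 𝕜 H 1) 1
  | mul (a b : H) : DoubleRel (genL 𝕜 H (a * b)) (genL 𝕜 H a * genL 𝕜 H b)
  | counit : DoubleRel (genR 𝕜 H (Coalgebra.counit : H →ₗ[𝕜] 𝕜)) 1
  | conv (p q : Module.Dual 𝕜 H) :
      DoubleRel (genR 𝕜 H (conv 𝕜 H p q)) (genR 𝕜 H p * genR 𝕜 H q)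
  | cross (h : H) (q : Module.Dual 𝕜 H) (n : ℕ) (a b : Fin n → H)
      (hab : (Coalgebra.comul h : H ⊗[𝕜] H) = ∑ i, a i ⊗ₜ[𝕜] b i) :
      DoubleRel (∑ i, genL 𝕜 H (a i) * genR 𝕜 H (q ∘ₗ LinearMap.mulLeft 𝕜 (b i)))
        (∑ i, genR 𝕜 H (q ∘ₗ LinearMap.mulRight 𝕜 (a i)) * genL 𝕜 H (b i))

/-- The Drinfeld double `D(H)`, as an algebra: it is generated by the algebras `H` and `H^*`
subject to the relations `∑ h₁ · q(h₂ -) = ∑ q(- h₁) · h₂`. -/
abbrev DrinfeldDouble : Type := RingQuot (DoubleRel 𝕜 H)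

/-- The quotient map from the tensor algebra to `D(H)`. -/
noncomputable def mkD : TensorAlgebra 𝕜 (H × Module.Dual 𝕜 H) →ₐ[𝕜] DrinfeldDouble 𝕜 H :=
  RingQuot.mkAlgHom 𝕜 (DoubleRel 𝕜 H)

theorem mkD_rel {u v : TensorAlgebra 𝕜 (H × Module.Dual 𝕜 H)} (h : DoubleRel 𝕜 H u v) :
    mkD 𝕜 H u = mkD 𝕜 H v :=
  RingQuot.mkAlgHom_rel 𝕜 h

/-- Algebra homomorphisms from `D(H)` are given by algebra homomorphisms from the tensor algebra
which respect the relations. -/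
noncomputable def liftD {A : Type} [Ring A] [Algebra 𝕜 A]
    (f : TensorAlgebra 𝕜 (H × Module.Dual 𝕜 H) →ₐ[𝕜] A)
    (hf : ∀ ⦃u v⦄, DoubleRel 𝕜 H u v → f u = f v) : DrinfeldDouble 𝕜 H →ₐ[𝕜] A :=
  RingQuot.liftAlgHom 𝕜 ⟨f, hf⟩

theorem liftD_mkD {A : Type} [Ring A] [Algebra 𝕜 A]
    (f : TensorAlgebra 𝕜 (H × Module.Dual 𝕜 H) →ₐ[𝕜] A)
    (hf : ∀ ⦃u v⦄, DoubleRel 𝕜 H u v → f u = f v) (t : TensorAlgebra 𝕜 (H × Module.Dual 𝕜 H)) :
    liftD 𝕜 H f hf (mkD 𝕜 H t) = f t :=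
  RingQuot.liftAlgHom_mkAlgHom_apply 𝕜 f hf t

/-- The linear map underlying `H → D(H)`. -/
noncomputable def toDoubleLin : H →ₗ[𝕜] DrinfeldDouble 𝕜 H :=
  (mkD 𝕜 H).toLinearMap ∘ₗ
      (TensorAlgebra.ι 𝕜 : (H × Module.Dual 𝕜 H) →ₗ[𝕜] _) ∘ₗ LinearMap.inl 𝕜 H (Module.Dual 𝕜 H)

theorem toDoubleLin_apply (h : H) : toDoubleLin 𝕜 H h = mkD 𝕜 H (genL 𝕜 H h) := rfl

/-- The algebra homomorphism `H → D(H)`. -/
noncomputable def toDouble : H →ₐ[𝕜] DrinfeldDouble 𝕜 H :=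
  AlgHom.ofLinearMap (toDoubleLin 𝕜 H)
    (by rw [toDoubleLin_apply, mkD_rel 𝕜 H DoubleRel.one, map_one])
    (by
      intro a b
      rw [toDoubleLin_apply, mkD_rel 𝕜 H (DoubleRel.mul a b), map_mul]
      rfl)

theorem toDouble_apply (h : H) : toDouble 𝕜 H h = mkD 𝕜 H (genL 𝕜 H h) := rfl

/-- The linear map underlying `H^* → D(H)`. -/
noncomputable def dualLin : Module.Dual 𝕜 H →ₗ[𝕜] DrinfeldDouble 𝕜 H :=
  (mkD 𝕜 H).toLinearMap ∘ₗ
      (TensorAlgebra.ι 𝕜 : (H × Module.Dual 𝕜 H) →ₗ[𝕜] _) ∘ₗ LinearMap.inr 𝕜 H (Module.Dual 𝕜 H)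

theorem dualLin_apply (p : Module.Dual 𝕜 H) : dualLin 𝕜 H p = mkD 𝕜 H (genR 𝕜 H p) := rfl

/-- The restriction along `H → D(H)` of a `D(H)`-module. -/
noncomputable abbrev restrictToH (M : ModuleCat.{0} (DrinfeldDouble 𝕜 H)) : ModuleCat.{0} H :=
  (ModuleCat.restrictScalars ((toDouble 𝕜 H : H →ₐ[𝕜] DrinfeldDouble 𝕜 H) :
    H →+* DrinfeldDouble 𝕜 H)).obj M

/-- `M` lies in the kernel of `StMod(D(H)) → StMod(H)`: its restriction to `H` is projective. -/
def InKernel (M : ModuleCat.{0} (DrinfeldDouble 𝕜 H)) : Prop :=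
  Module.Projective H (restrictToH 𝕜 H M)

/-- `M` is finite-dimensional over `𝕜`. -/
def IsFinDim (M : ModuleCat.{0} (DrinfeldDouble 𝕜 H)) : Prop :=
  Module.Finite 𝕜 ((ModuleCat.restrictScalars (algebraMap 𝕜 (DrinfeldDouble 𝕜 H))).obj M)

end Double

/-! ## Localizing classes -/

/-- A class of `A`-modules corresponding to a localizing subcategory of `StMod(A)`. -/
structure IsLocalizing (A : Type) [Ring A] (𝓛 : ModuleCat.{0} A → Prop) : Prop where
  /-- it contains the projective modules (the zero objects of the stable category) -/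
  projective : ∀ P : ModuleCat.{0} A, Module.Projective A P → 𝓛 P
  /-- two out of three for short exact sequences: first form -/
  right : ∀ (L M N : ModuleCat.{0} A) (f : L →ₗ[A] M) (g : M →ₗ[A] N),
    Function.Injective f → Function.Exact f g → Function.Surjective g → 𝓛 L → 𝓛 M → 𝓛 N
  /-- two out of three for short exact sequences: second form -/
  mid : ∀ (L M N : ModuleCat.{0} A) (f : L →ₗ[A] M) (g : M →ₗ[A] N),
    Function.Injective f → Function.Exact f g → Function.Surjective g → 𝓛 L → 𝓛 N → 𝓛 M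
  /-- two out of three for short exact sequences: third form -/
  left : ∀ (L M N : ModuleCat.{0} A) (f : L →ₗ[A] M) (g : M →ₗ[A] N),
    Function.Injective f → Function.Exact f g → Function.Surjective g → 𝓛 M → 𝓛 N → 𝓛 L
  /-- it is closed under set-indexed direct sums -/
  coprod : ∀ (ι : Type) (M : ι → ModuleCat.{0} A), (∀ i, 𝓛 (M i)) →
    𝓛 (ModuleCat.of A (⨁ i, M i))

/-- `Loc(𝒯)`: the smallest localizing class containing `𝒯`. -/
def Loc (A : Type) [Ring A] (𝒯 : ModuleCat.{0} A → Prop) (M : ModuleCat.{0} A) : Prop :=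
  ∀ 𝓛 : ModuleCat.{0} A → Prop, IsLocalizing A 𝓛 → (∀ T, 𝒯 T → 𝓛 T) → 𝓛 M

/-! ## The Hopf algebra -/

section Hopf

variable (𝕜 : Type) [Field 𝕜] [CharP 𝕜 2]

open DualNumber in
/-- The comultiplication, `ε ↦ ε ⊗ 1 + 1 ⊗ ε`. -/
noncomputable def comulHom : DualNumber 𝕜 →ₐ[𝕜] (DualNumber 𝕜 ⊗[𝕜] DualNumber 𝕜) :=
  DualNumber.lift ⟨⟨Algebra.ofId 𝕜 _, (ε : DualNumber 𝕜) ⊗ₜ[𝕜] 1 + 1 ⊗ₜ[𝕜] (ε : DualNumber 𝕜)⟩, by
    constructor
    · simp only [mul_add, add_mul, Algebra.TensorProduct.tmul_mul_tmul, eps_mul_eps, mul_one,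
        one_mul, TensorProduct.zero_tmul, TensorProduct.tmul_zero, zero_add, add_zero]
      rw [← two_smul 𝕜]
      rw [CharTwo.two_eq_zero, zero_smul]
    · intro a
      exact (Algebra.commutes a _).symm⟩

open DualNumber

theorem comulHom_eps : comulHom 𝕜 ε = (ε : DualNumber 𝕜) ⊗ₜ[𝕜] 1 + 1 ⊗ₜ[𝕜] (ε : DualNumber 𝕜) := by
  simp [comulHom]

/-- The counit, `ε ↦ 0`. -/
noncomputable def counitHom : DualNumber 𝕜 →ₐ[𝕜] 𝕜 := TrivSqZeroExt.fstHom 𝕜 𝕜 𝕜

theorem counitHom_eps : counitHom 𝕜 ε = 0 := by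
  simp [counitHom]

/-- The bialgebra structure. -/
noncomputable instance instBialg : Bialgebra 𝕜 (DualNumber 𝕜) :=
  Bialgebra.ofAlgHom (comulHom 𝕜) (counitHom 𝕜)
    (by
      apply DualNumber.algHom_ext
      simp only [AlgHom.comp_apply, comulHom_eps, map_add, Algebra.TensorProduct.map_tmul, map_one,
        AlgHom.coe_id, id_eq, AlgHom.coe_coe, Algebra.TensorProduct.one_def,
        TensorProduct.add_tmul, TensorProduct.tmul_add, Algebra.TensorProduct.assoc_tmul]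
      abel)
    (by
      apply DualNumber.algHom_ext
      simp [comulHom_eps, counitHom_eps])
    (by
      apply DualNumber.algHom_ext
      simp [comulHom_eps, counitHom_eps])

theorem comul_eq (h : DualNumber 𝕜) : (Coalgebra.comul h : DualNumber 𝕜 ⊗[𝕜] DualNumber 𝕜) =
    comulHom 𝕜 h := rfl

theorem counit_eq (h : DualNumber 𝕜) : (Coalgebra.counit h : 𝕜) = h.fst := rfl

omit [CharP 𝕜 2] in
theorem decomp (h : DualNumber 𝕜) : h = h.fst • (1 : DualNumber 𝕜) + h.snd • ε := by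
  ext <;> simp

theorem comul_formula (h : DualNumber 𝕜) :
    (Coalgebra.comul h : DualNumber 𝕜 ⊗[𝕜] DualNumber 𝕜) =
    h.fst • (1 ⊗ₜ[𝕜] 1) + h.snd • ((ε : DualNumber 𝕜) ⊗ₜ[𝕜] 1 + 1 ⊗ₜ[𝕜] (ε : DualNumber 𝕜)) := by
  conv_lhs => rw [decomp 𝕜 h]
  rw [comul_eq, map_add, map_smul, map_smul, map_one, comulHom_eps]
  rfl

theorem mul_comul (h : DualNumber 𝕜) :
    LinearMap.mul' 𝕜 (DualNumber 𝕜) (Coalgebra.comul h) =
      algebraMap 𝕜 (DualNumber 𝕜) (Coalgebra.counit h) := by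
  rw [comul_formula, map_add, map_smul, map_smul, map_add, LinearMap.mul'_apply,
    LinearMap.mul'_apply, LinearMap.mul'_apply, mul_one, mul_one, one_mul, ← two_smul 𝕜 ε,
    CharTwo.two_eq_zero, zero_smul, smul_zero, add_zero, counit_eq, Algebra.algebraMap_eq_smul_one]

/-- The Hopf algebra structure: the antipode is the identity. -/
noncomputable instance instHopf : HopfAlgebra 𝕜 (DualNumber 𝕜) where
  antipode := LinearMap.id
  mul_antipode_rTensor_comul := by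
    rw [LinearMap.rTensor_id]
    exact LinearMap.ext (mul_comul 𝕜)
  mul_antipode_lTensor_comul := by
    rw [LinearMap.lTensor_id]
    exact LinearMap.ext (mul_comul 𝕜)

end Hopf

/-! ## The structure of the double of `𝕜[ε]/(ε²)` -/

section DoubleOfH

variable (𝕜 : Type) [Field 𝕜] [CharP 𝕜 2]

open DualNumber

/-- The functional `a + b ε ↦ b`. -/
noncomputable def xi : Module.Dual 𝕜 (DualNumber 𝕜) := TrivSqZeroExt.sndHom 𝕜 𝕜

theorem xi_apply (h : DualNumber 𝕜) : xi 𝕜 h = h.snd := rfl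

/-- The element `x` of `D(H)` given by `ε`. -/
noncomputable def xD : DrinfeldDouble 𝕜 (DualNumber 𝕜) := toDouble 𝕜 (DualNumber 𝕜) ε

/-- The element `y` of `D(H)` given by `ξ`. -/
noncomputable def yD : DrinfeldDouble 𝕜 (DualNumber 𝕜) := dualLin 𝕜 (DualNumber 𝕜) (xi 𝕜)

theorem conv_apply (p q : Module.Dual 𝕜 (DualNumber 𝕜)) (h : DualNumber 𝕜) :
    conv 𝕜 (DualNumber 𝕜) p q h =
      h.fst * (p 1 * q 1) + h.snd * (p ε * q 1 + p 1 * q ε) := by
  simp [conv, comul_formula, mul_add]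

theorem dual_decomp (p : Module.Dual 𝕜 (DualNumber 𝕜)) :
    p = p 1 • (Coalgebra.counit : DualNumber 𝕜 →ₗ[𝕜] 𝕜) + p ε • xi 𝕜 := by
  apply LinearMap.ext
  intro h
  conv_lhs => rw [decomp 𝕜 h]
  simp only [LinearMap.add_apply, LinearMap.smul_apply, counit_eq, xi_apply, map_add, map_smul,
    smul_eq_mul]
  ring

theorem toDouble_eq (h : DualNumber 𝕜) :
    toDouble 𝕜 (DualNumber 𝕜) h = h.fst • 1 + h.snd • xD 𝕜 := by
  conv_lhs => rw [decomp 𝕜 h]
  rw [map_add, map_smul, map_smul, map_one]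
  rfl

theorem dualLin_counit :
    dualLin 𝕜 (DualNumber 𝕜) (Coalgebra.counit : DualNumber 𝕜 →ₗ[𝕜] 𝕜) = 1 := by
  rw [dualLin_apply, mkD_rel 𝕜 _ DoubleRel.counit, map_one]

theorem dualLin_eq (p : Module.Dual 𝕜 (DualNumber 𝕜)) :
    dualLin 𝕜 (DualNumber 𝕜) p = p 1 • 1 + p ε • yD 𝕜 := by
  conv_lhs => rw [dual_decomp 𝕜 p]
  rw [map_add, map_smul, map_smul, dualLin_counit]
  rfl

theorem dualLin_conv (p q : Module.Dual 𝕜 (DualNumber 𝕜)) :
    dualLin 𝕜 (DualNumber 𝕜) (conv 𝕜 (DualNumber 𝕜) p q) =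
      dualLin 𝕜 (DualNumber 𝕜) p * dualLin 𝕜 (DualNumber 𝕜) q := by
  rw [dualLin_apply, mkD_rel 𝕜 _ (DoubleRel.conv p q), map_mul]
  rfl

theorem xx : xD 𝕜 * xD 𝕜 = 0 := by
  rw [xD, ← map_mul, eps_mul_eps, map_zero]

theorem yy : yD 𝕜 * yD 𝕜 = 0 := by
  rw [yD, ← dualLin_conv, dualLin_eq]
  simp [conv_apply, xi_apply]

theorem xy : xD 𝕜 * yD 𝕜 = yD 𝕜 * xD 𝕜 := by
  have h := mkD_rel 𝕜 _ (DoubleRel.cross (𝕜 := 𝕜) (H := DualNumber 𝕜) ε (xi 𝕜) 2 ![ε, 1] ![1, ε]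
    (by simp [Fin.sum_univ_two, comul_formula]))
  simp only [Fin.sum_univ_two, Matrix.cons_val_zero, Matrix.cons_val_one, map_add, map_mul] at h
  simp only [← toDouble_apply, ← dualLin_apply, map_one, one_mul, mul_one, dualLin_eq] at h
  simp [xi_apply] at h
  have h' : xD 𝕜 * yD 𝕜 + 1 = 1 + yD 𝕜 * xD 𝕜 := h
  rw [add_comm 1] at h'
  exact add_right_cancel h'

/-- The linear map on generators. -/
noncomputable def genMap (A : Type) [Ring A] [Algebra 𝕜 A] (x y : A) :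
    (DualNumber 𝕜 × Module.Dual 𝕜 (DualNumber 𝕜)) →ₗ[𝕜] A :=
  LinearMap.coprod
    ((LinearMap.toSpanSingleton 𝕜 A 1) ∘ₗ (TrivSqZeroExt.fstHom 𝕜 𝕜 𝕜).toLinearMap +
      (LinearMap.toSpanSingleton 𝕜 A x) ∘ₗ (TrivSqZeroExt.sndHom 𝕜 𝕜))
    ((LinearMap.toSpanSingleton 𝕜 A 1) ∘ₗ LinearMap.applyₗ (1 : DualNumber 𝕜) +
      (LinearMap.toSpanSingleton 𝕜 A y) ∘ₗ LinearMap.applyₗ (ε : DualNumber 𝕜))

theorem genMap_L (A : Type) [Ring A] [Algebra 𝕜 A] (x y : A) (h : DualNumber 𝕜) :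
    TensorAlgebra.lift 𝕜 (genMap 𝕜 A x y) (genL 𝕜 _ h) = h.fst • 1 + h.snd • x := by
  simp [genL, genMap]

theorem genMap_R (A : Type) [Ring A] [Algebra 𝕜 A] (x y : A) (p : Module.Dual 𝕜 (DualNumber 𝕜)) :
    TensorAlgebra.lift 𝕜 (genMap 𝕜 A x y) (genR 𝕜 _ p) = p 1 • 1 + p ε • y := by
  simp [genR, genMap]

/-- The linear map `h ↦ h.fst + h.snd x`. -/
noncomputable def fL (A : Type) [Ring A] [Algebra 𝕜 A] (x : A) : DualNumber 𝕜 →ₗ[𝕜] A :=
  (LinearMap.toSpanSingleton 𝕜 A 1) ∘ₗ (TrivSqZeroExt.fstHom 𝕜 𝕜 𝕜).toLinearMap +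
      (LinearMap.toSpanSingleton 𝕜 A x) ∘ₗ (TrivSqZeroExt.sndHom 𝕜 𝕜)

theorem fL_apply (A : Type) [Ring A] [Algebra 𝕜 A] (x : A) (h : DualNumber 𝕜) :
    fL 𝕜 A x h = h.fst • 1 + h.snd • x := by
  simp [fL]

/-- The linear map `b ↦ q(b) + q(b ε) y`. -/
noncomputable def gL (A : Type) [Ring A] [Algebra 𝕜 A] (y : A) (q : Module.Dual 𝕜 (DualNumber 𝕜)) :
    DualNumber 𝕜 →ₗ[𝕜] A :=
  (LinearMap.toSpanSingleton 𝕜 A 1) ∘ₗ q +
      (LinearMap.toSpanSingleton 𝕜 A y) ∘ₗ (q ∘ₗ LinearMap.mulRight 𝕜 ε)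

theorem gL_apply (A : Type) [Ring A] [Algebra 𝕜 A] (y : A) (q : Module.Dual 𝕜 (DualNumber 𝕜))
    (b : DualNumber 𝕜) :
    gL 𝕜 A y q b = q b • 1 + q (b * ε) • y := by
  simp [gL]

theorem cross_aux (A : Type) [Ring A] [Algebra 𝕜 A] (f g : DualNumber 𝕜 →ₗ[𝕜] A)
    (h : DualNumber 𝕜) (n : ℕ) (a b : Fin n → DualNumber 𝕜)
    (hab : (Coalgebra.comul h : DualNumber 𝕜 ⊗[𝕜] DualNumber 𝕜) = ∑ i, a i ⊗ₜ[𝕜] b i) :
    ∑ i, f (a i) * g (b i) = h.fst • (f 1 * g 1) + h.snd • (f ε * g 1 + f 1 * g ε) := by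
  have := congrArg (LinearMap.mul' 𝕜 A ∘ₗ TensorProduct.map f g) hab
  rw [comul_formula] at this
  simp only [LinearMap.comp_apply, map_add, map_smul, map_sum, TensorProduct.map_tmul,
    LinearMap.mul'_apply] at this
  exact this.symm

/-- The universal property of `D(H)`, for `H = 𝕜[ε]/(ε²)`. -/
theorem exists_lift (A : Type) [Ring A] [Algebra 𝕜 A] (x y : A) (hx : x * x = 0) (hy : y * y = 0)
    (hxy : x * y = y * x) :
    ∃ φ : DrinfeldDouble 𝕜 (DualNumber 𝕜) →ₐ[𝕜] A, φ (xD 𝕜) = x ∧ φ (yD 𝕜) = y := by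
  have key : ∀ ⦃u v : TensorAlgebra 𝕜 (DualNumber 𝕜 × Module.Dual 𝕜 (DualNumber 𝕜))⦄,
      DoubleRel 𝕜 (DualNumber 𝕜) u v →
      TensorAlgebra.lift 𝕜 (genMap 𝕜 A x y) u = TensorAlgebra.lift 𝕜 (genMap 𝕜 A x y) v := by
    intro u v huv
    induction huv with
    | one => rw [genMap_L, map_one]; simp
    | mul a b =>
      rw [map_mul, genMap_L, genMap_L, genMap_L]
      simp only [mul_add, add_mul, smul_mul_assoc, mul_smul_comm, one_mul, mul_one, hx, smul_zero,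
        add_zero, TrivSqZeroExt.fst_mul, DualNumber.snd_mul]
      module
    | counit =>
      rw [genMap_R, map_one (TensorAlgebra.lift 𝕜 (genMap 𝕜 A x y))]
      change (counitHom 𝕜 1) • (1 : A) + (counitHom 𝕜 ε) • y = 1
      rw [map_one (counitHom 𝕜), counitHom_eps]
      simp
    | conv p q =>
      rw [map_mul, genMap_R, genMap_R, genMap_R]
      simp only [mul_add, add_mul, smul_mul_assoc, mul_smul_comm, one_mul, mul_one, hy, smul_zero,
        add_zero, conv_apply, TrivSqZeroExt.fst_one, TrivSqZeroExt.snd_one, fst_eps, snd_eps,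
        zero_mul, zero_add]
      module
    | cross h q n a b hab =>
      rw [map_sum, map_sum]
      have e1 : ∀ i, TensorAlgebra.lift 𝕜 (genMap 𝕜 A x y)
          (genL 𝕜 (DualNumber 𝕜) (a i) *
            genR 𝕜 (DualNumber 𝕜) (q ∘ₗ LinearMap.mulLeft 𝕜 (b i))) =
          fL 𝕜 A x (a i) * gL 𝕜 A y q (b i) := by
        intro i
        rw [map_mul, genMap_L, genMap_R, fL_apply, gL_apply]
        simp
      have e2 : ∀ i, TensorAlgebra.lift 𝕜 (genMap 𝕜 A x y)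
          (genR 𝕜 (DualNumber 𝕜) (q ∘ₗ LinearMap.mulRight 𝕜 (a i)) *
            genL 𝕜 (DualNumber 𝕜) (b i)) =
          gL 𝕜 A y q (a i) * fL 𝕜 A x (b i) := by
        intro i
        rw [map_mul, genMap_L, genMap_R, fL_apply, gL_apply]
        simp [mul_comm]
      rw [Finset.sum_congr rfl (fun i _ => e1 i), Finset.sum_congr rfl (fun i _ => e2 i),
        cross_aux 𝕜 A _ _ h n a b hab, cross_aux 𝕜 A _ _ h n a b hab]
      have f1 : fL 𝕜 A x 1 = 1 := by simp [fL_apply]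
      have f2 : fL 𝕜 A x ε = x := by simp [fL_apply]
      have g2 : gL 𝕜 A y q ε = q ε • 1 := by simp [gL_apply]
      have g1 : gL 𝕜 A y q 1 = q 1 • 1 + q ε • y := by simp [gL_apply]
      rw [f1, f2, g1, g2]
      simp only [mul_add, add_mul, smul_mul_assoc, mul_smul_comm, one_mul, mul_one, hxy]
      abel
  refine ⟨liftD 𝕜 _ (TensorAlgebra.lift 𝕜 (genMap 𝕜 A x y)) key, ?_, ?_⟩
  · rw [xD, toDouble_apply, liftD_mkD, genMap_L]
    simp
  · rw [yD, dualLin_apply, liftD_mkD, genMap_R]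
    simp [xi_apply]

theorem algHom_ext {A : Type} [Ring A] [Algebra 𝕜 A]
    {φ ψ : DrinfeldDouble 𝕜 (DualNumber 𝕜) →ₐ[𝕜] A} (h1 : φ (xD 𝕜) = ψ (xD 𝕜))
    (h2 : φ (yD 𝕜) = ψ (yD 𝕜)) : φ = ψ := by
  have h3 : φ.comp (mkD 𝕜 _) = ψ.comp (mkD 𝕜 _) := by
    apply TensorAlgebra.hom_ext
    apply LinearMap.ext
    rintro ⟨h, p⟩
    have e : TensorAlgebra.ι 𝕜 ((h, p) : DualNumber 𝕜 × Module.Dual 𝕜 (DualNumber 𝕜)) =
        genL 𝕜 _ h + genR 𝕜 _ p := by
      rw [genL, genR, ← map_add]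
      simp
    simp only [LinearMap.comp_apply, AlgHom.toLinearMap_apply, AlgHom.comp_apply, e, map_add]
    rw [← toDouble_apply, ← dualLin_apply, toDouble_eq, dualLin_eq]
    simp [h1, h2]
  apply AlgHom.ext
  intro d
  obtain ⟨t, rfl⟩ := RingQuot.mkAlgHom_surjective 𝕜 (DoubleRel 𝕜 (DualNumber 𝕜)) d
  exact congrArg (fun f => f t) h3

/-- There is a linear map `h` on `D(H)` with `x h + h x = 1` and `y h + h y = 0`: the derivation
with `x ↦ 1` and `y ↦ 0`. -/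
theorem exists_homotopy_D : ∃ h : DrinfeldDouble 𝕜 (DualNumber 𝕜) →ₗ[𝕜]
      DrinfeldDouble 𝕜 (DualNumber 𝕜),
    (∀ a, xD 𝕜 * h a + h (xD 𝕜 * a) = a) ∧ (∀ a, yD 𝕜 * h a + h (yD 𝕜 * a) = 0) := by
  have two : ∀ a : DrinfeldDouble 𝕜 (DualNumber 𝕜), a + a = 0 := by
    intro a
    rw [← two_smul 𝕜, CharTwo.two_eq_zero, zero_smul]
  obtain ⟨φ, hφx, hφy⟩ := exists_lift 𝕜 (DualNumber (DrinfeldDouble 𝕜 (DualNumber 𝕜)))
    (TrivSqZeroExt.inl (xD 𝕜) + TrivSqZeroExt.inr 1) (TrivSqZeroExt.inl (yD 𝕜))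
    (by
      ext
      · simp [xx]
      · simp [two])
    (by ext <;> simp [yy])
    (by
      ext
      · simp [xy]
      · simp)
  have hfst : ∀ a, (φ a).fst = a := by
    intro a
    have : (TrivSqZeroExt.fstHom 𝕜 _ _).comp φ = AlgHom.id 𝕜 _ := by
      apply algHom_ext
      · simp [hφx]
      · simp [hφy]
    exact congrArg (fun f => f a) this
  refine ⟨(TrivSqZeroExt.sndHom _ _).restrictScalars 𝕜 ∘ₗ φ.toLinearMap, ?_, ?_⟩
  · intro a
    change xD 𝕜 * (φ a).snd + (φ (xD 𝕜 * a)).snd = a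
    rw [map_mul, DualNumber.snd_mul, hφx, hfst]
    simp [← add_assoc, two]
  · intro a
    change yD 𝕜 * (φ a).snd + (φ (yD 𝕜 * a)).snd = 0
    rw [map_mul, DualNumber.snd_mul, hφy, hfst]
    simp [two]

/-- There is a linear map `h` on `H` with `ε h + h ε = 1`. -/
theorem exists_homotopy_H : ∃ h : DualNumber 𝕜 →ₗ[𝕜] DualNumber 𝕜,
    (∀ a, ε * h a + h (ε * a) = a) ∧ (∀ a, (0 : DualNumber 𝕜) * h a + h (0 * a) = 0) := by
  refine ⟨LinearMap.toSpanSingleton 𝕜 _ 1 ∘ₗ TrivSqZeroExt.sndHom 𝕜 𝕜, ?_, ?_⟩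
  · intro a
    ext <;> simp
  · intro a
    simp

end DoubleOfH

/-! ## Homotopies on projective modules -/

section Homotopy

variable (𝕜 : Type) [Field 𝕜]

theorem exists_homotopy {A : Type} [Ring A] [Algebra 𝕜 A] (x y : A)
    (hA : ∃ h : A →ₗ[𝕜] A, (∀ a, x * h a + h (x * a) = a) ∧ (∀ a, y * h a + h (y * a) = 0))
    (M : Type) [AddCommGroup M] [Module 𝕜 M] [Module A M] [IsScalarTower 𝕜 A M]
    [Module.Projective A M] :
    ∃ h : M →ₗ[𝕜] M, (∀ m, x • h m + h (x • m) = m) ∧ (∀ m, y • h m + h (y • m) = 0) := by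
  obtain ⟨h, h1, h2⟩ := hA
  obtain ⟨s, hs⟩ := Module.projective_def'.1 (inferInstance : Module.Projective A M)
  have hs' : ∀ m, Finsupp.linearCombination A id (s m) = m := fun m => LinearMap.congr_fun hs m
  refine ⟨(Finsupp.linearCombination A (id : M → M)).restrictScalars 𝕜 ∘ₗ
    Finsupp.mapRange.linearMap h ∘ₗ s.restrictScalars 𝕜, ?_, ?_⟩
  · intro m
    simp only [LinearMap.comp_apply, LinearMap.restrictScalars_apply]
    rw [← map_smul, ← map_add, map_smul s]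
    conv_rhs => rw [← hs' m]
    congr 1
    ext i
    simp [h1]
  · intro m
    simp only [LinearMap.comp_apply, LinearMap.restrictScalars_apply]
    have e : y • (Finsupp.mapRange.linearMap h (s m)) +
        Finsupp.mapRange.linearMap h (y • s m) = 0 := by
      ext i
      simp [h2]
    rw [← map_smul, ← map_add, map_smul s, e, map_zero]

end Homotopy

/-! ## The operator `z` and the localizing class it defines -/

section ZExact

variable (𝕜 : Type) [Field 𝕜]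

/-- The operator `z = x + t y` on `𝕜(t) ⊗ M`. -/
noncomputable def zop {M : Type} [AddCommGroup M] [Module 𝕜 M] (x y : M →ₗ[𝕜] M) :
    (RatFunc 𝕜 ⊗[𝕜] M) →ₗ[RatFunc 𝕜] (RatFunc 𝕜 ⊗[𝕜] M) :=
  x.baseChange (RatFunc 𝕜) + (RatFunc.X : RatFunc 𝕜) • y.baseChange (RatFunc 𝕜)

theorem zop_tmul {M : Type} [AddCommGroup M] [Module 𝕜 M] (x y : M →ₗ[𝕜] M) (c : RatFunc 𝕜)
    (m : M) : zop 𝕜 x y (c ⊗ₜ m) = c ⊗ₜ x m + (RatFunc.X * c) ⊗ₜ y m := by
  simp [zop, TensorProduct.smul_tmul']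

/-- Exactness of `z`. -/
def ZEx {M : Type} [AddCommGroup M] [Module 𝕜 M] (x y : M →ₗ[𝕜] M) : Prop :=
  ∀ m, zop 𝕜 x y m = 0 → ∃ m', zop 𝕜 x y m' = m

theorem zop_zop [CharP 𝕜 2] {M : Type} [AddCommGroup M] [Module 𝕜 M] (x y : M →ₗ[𝕜] M)
    (hx : ∀ m, x (x m) = 0) (hy : ∀ m, y (y m) = 0) (hxy : ∀ m, x (y m) = y (x m))
    (m : RatFunc 𝕜 ⊗[𝕜] M) : zop 𝕜 x y (zop 𝕜 x y m) = 0 := by
  induction m with
  | zero => simp
  | tmul c m =>
    rw [zop_tmul, map_add, zop_tmul, zop_tmul, hx, hy, hxy]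
    simp only [TensorProduct.tmul_zero, zero_add, add_zero]
    rw [← two_smul 𝕜, CharTwo.two_eq_zero, zero_smul]
  | add a b ha hb => rw [map_add, map_add, ha, hb, add_zero]

theorem zop_map {M N : Type} [AddCommGroup M] [Module 𝕜 M] [AddCommGroup N] [Module 𝕜 N]
    (x y : M →ₗ[𝕜] M) (x' y' : N →ₗ[𝕜] N) (f : M →ₗ[𝕜] N) (hfx : ∀ m, f (x m) = x' (f m))
    (hfy : ∀ m, f (y m) = y' (f m)) (m : RatFunc 𝕜 ⊗[𝕜] M) :
    f.baseChange (RatFunc 𝕜) (zop 𝕜 x y m) = zop 𝕜 x' y' (f.baseChange (RatFunc 𝕜) m) := by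
  induction m with
  | zero => simp
  | tmul c m =>
    rw [zop_tmul, map_add, LinearMap.baseChange_tmul, LinearMap.baseChange_tmul,
      LinearMap.baseChange_tmul, zop_tmul, hfx, hfy]
  | add a b ha hb => rw [map_add, map_add, map_add, map_add, ha, hb]

/-- Projective modules are `z`-exact. -/
theorem zEx_of_homotopy {M : Type} [AddCommGroup M] [Module 𝕜 M] (x y h : M →ₗ[𝕜] M)
    (h1 : ∀ m, x (h m) + h (x m) = m) (h2 : ∀ m, y (h m) + h (y m) = 0) : ZEx 𝕜 x y := by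
  have key : ∀ m, zop 𝕜 x y (h.baseChange (RatFunc 𝕜) m) +
      h.baseChange (RatFunc 𝕜) (zop 𝕜 x y m) = m := by
    intro m
    induction m with
    | zero => simp
    | tmul c m =>
      rw [LinearMap.baseChange_tmul, zop_tmul, zop_tmul, map_add, LinearMap.baseChange_tmul,
        LinearMap.baseChange_tmul]
      conv_rhs => rw [← h1 m]
      have e : (RatFunc.X * c) ⊗ₜ[𝕜] (y (h m)) + (RatFunc.X * c) ⊗ₜ[𝕜] (h (y m)) = 0 := by
        rw [← TensorProduct.tmul_add, h2, TensorProduct.tmul_zero]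
      rw [TensorProduct.tmul_add, add_add_add_comm, e, add_zero]
    | add a b ha hb =>
      conv_rhs => rw [← ha, ← hb]
      simp only [map_add]
      abel
  intro m hm
  refine ⟨h.baseChange (RatFunc 𝕜) m, ?_⟩
  have := key m
  rwa [hm, map_zero, add_zero] at this

/-- The diagram chases. -/
theorem chase {A B C : Type} [AddCommGroup A] [AddCommGroup B] [AddCommGroup C]
    (zA : A →+ A) (zB : B →+ B) (zC : C →+ C) (F : A →+ B) (G : B →+ C)
    (hA : ∀ a, zA (zA a) = 0) (hB : ∀ a, zB (zB a) = 0)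
    (hF : ∀ a, F (zA a) = zB (F a)) (hG : ∀ b, G (zB b) = zC (G b))
    (Finj : ∀ a, F a = 0 → a = 0) (ex : ∀ b, G b = 0 → ∃ a, F a = b) (FG : ∀ a, G (F a) = 0)
    (Gsur : ∀ c, ∃ b, G b = c) :
    ((∀ a, zA a = 0 → ∃ a', zA a' = a) → (∀ b, zB b = 0 → ∃ b', zB b' = b) →
      (∀ c, zC c = 0 → ∃ c', zC c' = c)) ∧
    ((∀ a, zA a = 0 → ∃ a', zA a' = a) → (∀ c, zC c = 0 → ∃ c', zC c' = c) →
      (∀ b, zB b = 0 → ∃ b', zB b' = b)) ∧
    ((∀ b, zB b = 0 → ∃ b', zB b' = b) → (∀ c, zC c = 0 → ∃ c', zC c' = c) →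
      (∀ a, zA a = 0 → ∃ a', zA a' = a)) := by
  refine ⟨?_, ?_, ?_⟩
  · intro eA eB c hc
    obtain ⟨b, rfl⟩ := Gsur c
    obtain ⟨a, ha⟩ := ex (zB b) (by rw [hG, hc])
    have h1 : zA a = 0 := Finj _ (by rw [hF, ha, hB])
    obtain ⟨a', rfl⟩ := eA a h1
    obtain ⟨b', hb'⟩ := eB (b - F a') (by rw [map_sub, ← hF, ha, sub_self])
    refine ⟨G b', ?_⟩
    rw [← hG, hb', map_sub, FG, sub_zero]
  · intro eA eC b hb
    obtain ⟨c', hc'⟩ := eC (G b) (by rw [← hG, hb, map_zero])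
    obtain ⟨b', rfl⟩ := Gsur c'
    obtain ⟨a, ha⟩ := ex (b - zB b') (by rw [map_sub, hG, hc', sub_self])
    have h1 : zA a = 0 := Finj _ (by rw [hF, ha, map_sub, hb, hB, sub_zero])
    obtain ⟨a', rfl⟩ := eA a h1
    refine ⟨b' + F a', ?_⟩
    rw [map_add, ← hF, ha]
    abel
  · intro eB eC a ha
    obtain ⟨b, hb⟩ := eB (F a) (by rw [← hF, ha, map_zero])
    obtain ⟨c', hc'⟩ := eC (G b) (by rw [← hG, hb, FG])
    obtain ⟨b', rfl⟩ := Gsur c'
    obtain ⟨a', ha'⟩ := ex (b - zB b') (by rw [map_sub, hG, hc', sub_self])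
    refine ⟨a', ?_⟩
    have : F (zA a' - a) = 0 := by
      rw [map_sub, hF, ha', map_sub, hB, sub_zero, hb, sub_self]
    exact sub_eq_zero.1 (Finj _ this)

theorem zEx_two_of_three [CharP 𝕜 2] {L M N : Type} [AddCommGroup L] [Module 𝕜 L]
    [AddCommGroup M] [Module 𝕜 M] [AddCommGroup N] [Module 𝕜 N] (xL yL : L →ₗ[𝕜] L)
    (xM yM : M →ₗ[𝕜] M) (xN yN : N →ₗ[𝕜] N) (f : L →ₗ[𝕜] M) (g : M →ₗ[𝕜] N)
    (hxL : ∀ m, xL (xL m) = 0) (hyL : ∀ m, yL (yL m) = 0) (hxyL : ∀ m, xL (yL m) = yL (xL m))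
    (hxM : ∀ m, xM (xM m) = 0) (hyM : ∀ m, yM (yM m) = 0) (hxyM : ∀ m, xM (yM m) = yM (xM m))
    (hfx : ∀ m, f (xL m) = xM (f m)) (hfy : ∀ m, f (yL m) = yM (f m))
    (hgx : ∀ m, g (xM m) = xN (g m)) (hgy : ∀ m, g (yM m) = yN (g m))
    (hf : Function.Injective f) (hfg : Function.Exact f g) (hg : Function.Surjective g) :
    (ZEx 𝕜 xL yL → ZEx 𝕜 xM yM → ZEx 𝕜 xN yN) ∧
    (ZEx 𝕜 xL yL → ZEx 𝕜 xN yN → ZEx 𝕜 xM yM) ∧
    (ZEx 𝕜 xM yM → ZEx 𝕜 xN yN → ZEx 𝕜 xL yL) := by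
  have e := lTensor_exact (RatFunc 𝕜) hfg hg
  exact chase (zop 𝕜 xL yL).toAddMonoidHom (zop 𝕜 xM yM).toAddMonoidHom
    (zop 𝕜 xN yN).toAddMonoidHom (f.baseChange (RatFunc 𝕜)).toAddMonoidHom
    (g.baseChange (RatFunc 𝕜)).toAddMonoidHom
    (zop_zop 𝕜 xL yL hxL hyL hxyL) (zop_zop 𝕜 xM yM hxM hyM hxyM)
    (zop_map 𝕜 xL yL xM yM f hfx hfy) (zop_map 𝕜 xM yM xN yN g hgx hgy)
    (fun a ha => Module.Flat.lTensor_preserves_injective_linearMap f hf
      (ha.trans (map_zero (f.baseChange (RatFunc 𝕜))).symm))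
    (fun b hb => (e b).1 hb) (fun a => (e _).2 ⟨a, rfl⟩)
    (LinearMap.lTensor_surjective (RatFunc 𝕜) hg)

theorem zEx_directSum {ι : Type} [DecidableEq ι] (M : ι → Type) [∀ i, AddCommGroup (M i)]
    [∀ i, Module 𝕜 (M i)] (x y : ∀ i, M i →ₗ[𝕜] M i) (h : ∀ i, ZEx 𝕜 (x i) (y i)) :
    ZEx 𝕜 (DirectSum.lmap x) (DirectSum.lmap y) := by
  let π : ∀ i, (RatFunc 𝕜 ⊗[𝕜] (⨁ i, M i)) →ₗ[RatFunc 𝕜] (RatFunc 𝕜 ⊗[𝕜] M i) := fun i =>
    (DirectSum.component 𝕜 ι M i).baseChange (RatFunc 𝕜)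
  let κ : ∀ i, (RatFunc 𝕜 ⊗[𝕜] M i) →ₗ[RatFunc 𝕜] (RatFunc 𝕜 ⊗[𝕜] (⨁ i, M i)) := fun i =>
    (DirectSum.lof 𝕜 ι M i).baseChange (RatFunc 𝕜)
  have hπ : ∀ i m, π i (zop 𝕜 (DirectSum.lmap x) (DirectSum.lmap y) m) =
      zop 𝕜 (x i) (y i) (π i m) := fun i =>
    zop_map 𝕜 (DirectSum.lmap x) (DirectSum.lmap y) (x i) (y i) _
      (fun m => rfl) (fun m => rfl)
  have hκ : ∀ i m, κ i (zop 𝕜 (x i) (y i) m) =
      zop 𝕜 (DirectSum.lmap x) (DirectSum.lmap y) (κ i m) := fun i =>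
    zop_map 𝕜 (x i) (y i) (DirectSum.lmap x) (DirectSum.lmap y) _
      (fun m => (DirectSum.lmap_lof x i m).symm) (fun m => (DirectSum.lmap_lof y i m).symm)
  have hdec : ∀ m : RatFunc 𝕜 ⊗[𝕜] (⨁ i, M i), ∃ S : Finset ι, ∀ T : Finset ι, S ⊆ T →
      m = ∑ i ∈ T, κ i (π i m) := by
    classical
    intro m
    induction m with
    | zero => exact ⟨∅, fun T _ => by simp⟩
    | tmul c v =>
      refine ⟨DFinsupp.support v, fun T hT => ?_⟩
      have e : v = ∑ i ∈ T, DirectSum.lof 𝕜 ι M i (v i) := by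
        rw [← Finset.sum_subset hT]
        · exact (DirectSum.sum_support_of v).symm
        · intro i _ hi
          rw [DFinsupp.notMem_support_iff.1 hi, map_zero]
      conv_lhs => rw [e, TensorProduct.tmul_sum]
      exact Finset.sum_congr rfl fun i _ => by
        rw [LinearMap.baseChange_tmul, LinearMap.baseChange_tmul]
        rfl
    | add a b ha hb =>
      obtain ⟨S, hS⟩ := ha
      obtain ⟨S', hS'⟩ := hb
      refine ⟨S ∪ S', fun T hT => ?_⟩
      conv_lhs => rw [hS T (Finset.union_subset_left hT), hS' T (Finset.union_subset_right hT)]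
      rw [← Finset.sum_add_distrib]
      exact Finset.sum_congr rfl fun i _ => by rw [map_add, map_add]
  intro m hm
  have h1 : ∀ i, ∃ m', zop 𝕜 (x i) (y i) m' = π i m := fun i =>
    h i (π i m) (by rw [← hπ, hm, map_zero])
  choose m' hm' using h1
  obtain ⟨S, hS⟩ := hdec m
  refine ⟨∑ i ∈ S, κ i (m' i), ?_⟩
  rw [map_sum]
  conv_rhs => rw [hS S (Finset.Subset.refl S)]
  exact Finset.sum_congr rfl fun i _ => by rw [← hκ, hm']

/-- A finite-dimensional module which is free over `𝕜[x]/(x²)` is `z`-exact. -/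
theorem zEx_of_finite [CharP 𝕜 2] {M : Type} [AddCommGroup M] [Module 𝕜 M] [Module.Finite 𝕜 M]
    (x y h : M →ₗ[𝕜] M) (hx : ∀ m, x (x m) = 0) (hy : ∀ m, y (y m) = 0)
    (hxy : ∀ m, x (y m) = y (x m)) (h1 : ∀ m, x (h m) + h (x m) = m) : ZEx 𝕜 x y := by
  classical
  set N : Module.End 𝕜 M := y ∘ₗ h + h ∘ₗ y with hN
  set NK : Module.End (RatFunc 𝕜) (RatFunc 𝕜 ⊗[𝕜] M) := N.baseChange (RatFunc 𝕜) with hNK
  set t : RatFunc 𝕜 := RatFunc.X with ht
  have t0 : t ≠ 0 := RatFunc.X_ne_zero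
  -- `z h + h z = 1 + t N`
  have key : ∀ m, zop 𝕜 x y (h.baseChange (RatFunc 𝕜) m) +
      h.baseChange (RatFunc 𝕜) (zop 𝕜 x y m) = m + t • NK m := by
    intro m
    induction m with
    | zero => simp
    | tmul c m =>
      rw [hNK, LinearMap.baseChange_tmul, zop_tmul, zop_tmul, map_add, LinearMap.baseChange_tmul,
        LinearMap.baseChange_tmul, LinearMap.baseChange_tmul, TensorProduct.smul_tmul']
      have e : c ⊗ₜ[𝕜] x (h m) + c ⊗ₜ[𝕜] h (x m) = c ⊗ₜ[𝕜] m := by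
        rw [← TensorProduct.tmul_add, h1]
      rw [← e]
      simp only [hN, LinearMap.add_apply, LinearMap.comp_apply, smul_eq_mul,
        TensorProduct.tmul_add]
      abel
    | add a b ha hb =>
      have : zop 𝕜 x y (h.baseChange (RatFunc 𝕜) (a + b)) +
        h.baseChange (RatFunc 𝕜) (zop 𝕜 x y (a + b)) =
        (zop 𝕜 x y (h.baseChange (RatFunc 𝕜) a) +
        h.baseChange (RatFunc 𝕜) (zop 𝕜 x y a)) + (zop 𝕜 x y (h.baseChange (RatFunc 𝕜) b) +
        h.baseChange (RatFunc 𝕜) (zop 𝕜 x y b)) := by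
        simp only [map_add]
        abel
      rw [this, ha, hb]
      simp only [map_add, smul_add]
      abel
  -- `1 + t N` is invertible
  have unit : IsUnit (1 + t • NK) := by
    set P : Polynomial (RatFunc 𝕜) := (minpoly 𝕜 N).map (algebraMap 𝕜 (RatFunc 𝕜)) with hP
    set a : RatFunc 𝕜 := -t⁻¹ with ha
    have hPN : Polynomial.aeval NK P = 0 := by
      rw [hP, Polynomial.aeval_map_algebraMap]
      have : NK = Module.End.baseChangeHom 𝕜 (RatFunc 𝕜) M N := rfl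
      rw [this, Polynomial.aeval_algHom_apply, minpoly.aeval, map_zero]
    have hu : P.eval a ≠ 0 := by
      rw [hP, Polynomial.eval_map_algebraMap]
      intro h0
      have hX : IsAlgebraic 𝕜 a :=
        ⟨minpoly 𝕜 N, minpoly.ne_zero (Algebra.IsIntegral.isIntegral N), h0⟩
      have hX2 : IsAlgebraic 𝕜 (-a)⁻¹ := hX.neg.inv
      rw [ha, neg_neg, inv_inv] at hX2
      exact RatFunc.transcendental_X hX2
    set u := P.eval a with hu'
    obtain ⟨q, hq⟩ : (Polynomial.X - Polynomial.C a) ∣ (P - Polynomial.C u) :=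
      Polynomial.X_sub_C_dvd_sub_C_eval
    have hq' : P - Polynomial.C u = q * (Polynomial.X - Polynomial.C a) := by
      rw [hq, mul_comm]
    have e1 := congrArg (Polynomial.aeval NK) hq
    have e2 := congrArg (Polynomial.aeval NK) hq'
    simp only [map_sub, map_mul, hPN, Polynomial.aeval_X, Polynomial.aeval_C, zero_sub] at e1 e2
    have e3 : 1 + t • NK = t • (NK - algebraMap _ _ a) := by
      rw [Algebra.algebraMap_eq_smul_one, smul_sub, smul_smul, ha, mul_neg, mul_inv_cancel₀ t0,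
        neg_smul, one_smul, sub_neg_eq_add, add_comm]
    have e4 : (t * (t⁻¹ * (-u⁻¹))) • (-(algebraMap (RatFunc 𝕜)
        (Module.End (RatFunc 𝕜) (RatFunc 𝕜 ⊗[𝕜] M)) u)) = 1 := by
      rw [Algebra.algebraMap_eq_smul_one, smul_neg, smul_smul, ← neg_smul]
      have : -(t * (t⁻¹ * (-u⁻¹)) * u) = 1 := by
        field_simp
      rw [this, one_smul]
    rw [isUnit_iff_exists]
    refine ⟨(t⁻¹ * (-u⁻¹)) • Polynomial.aeval NK q, ?_, ?_⟩
    · rw [e3, smul_mul_smul_comm, ← e1]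
      exact e4
    · rw [e3, smul_mul_smul_comm, ← e2, mul_comm _ t]
      exact e4
  have bij : Function.Bijective (1 + t • NK : Module.End (RatFunc 𝕜) (RatFunc 𝕜 ⊗[𝕜] M)) :=
    (Module.End.isUnit_iff _).1 unit
  have zz := zop_zop 𝕜 x y hx hy hxy
  intro m hm
  obtain ⟨m'', hm''⟩ := bij.2 m
  have hm2 : m'' + t • NK m'' = m := hm''
  have comm : zop 𝕜 x y (m'' + t • NK m'') =
      zop 𝕜 x y m'' + t • NK (zop 𝕜 x y m'') := by
    rw [← key, ← key, map_add, zz, zz, map_zero, add_zero, zero_add]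
  rw [hm2, hm] at comm
  have hz : zop 𝕜 x y m'' = 0 := by
    apply bij.1
    rw [map_zero]
    exact comm.symm
  refine ⟨h.baseChange (RatFunc 𝕜) m'', ?_⟩
  have := key m''
  rw [hz, map_zero, add_zero] at this
  rw [this, hm2]

end ZExact

/-! ## The localizing class of `z`-exact modules -/

section Final

variable (𝕜 : Type) [Field 𝕜]

open DualNumber

/-- The action of an element of an algebra, as a `𝕜`-linear map. -/
def act {A : Type} [Ring A] [Algebra 𝕜 A] (d : A) (M : Type) [AddCommGroup M] [Module 𝕜 M]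
    [Module A M] [IsScalarTower 𝕜 A M] : M →ₗ[𝕜] M where
  toFun m := d • m
  map_add' := smul_add d
  map_smul' r m := by
    rw [RingHom.id_apply, ← algebraMap_smul A r m, ← mul_smul, ← Algebra.commutes, mul_smul,
      algebraMap_smul]

theorem compHom_tower {A : Type} [Ring A] [Algebra 𝕜 A] (M : Type) [AddCommGroup M] [Module A M] :
    letI : Module 𝕜 M := Module.compHom M (algebraMap 𝕜 A)
    IsScalarTower 𝕜 A M := by
  letI : Module 𝕜 M := Module.compHom M (algebraMap 𝕜 A)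
  refine ⟨fun r d m => ?_⟩
  rw [Algebra.smul_def, mul_smul]
  rfl

variable {A : Type} [Ring A] [Algebra 𝕜 A] (x y : A)

/-- `z`-exactness of a module over an algebra with two elements `x` and `y`. -/
def ZExMod (M : Type) [AddCommGroup M] [Module A M] : Prop :=
  letI : Module 𝕜 M := Module.compHom M (algebraMap 𝕜 A)
  have : IsScalarTower 𝕜 A M := compHom_tower 𝕜 M
  ZEx 𝕜 (act 𝕜 x M) (act 𝕜 y M)

theorem zExMod_iff (M : Type) [AddCommGroup M] [i1 : Module 𝕜 M] [Module A M]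
    [IsScalarTower 𝕜 A M] :
    ZExMod 𝕜 x y M ↔ ZEx 𝕜 (act 𝕜 x M) (act 𝕜 y M) := by
  have : i1 = Module.compHom M (algebraMap 𝕜 A) := by
    apply Module.ext'
    intro r m
    exact (algebraMap_smul A r m).symm
  subst this
  rfl

section Acts

variable (M : Type) [AddCommGroup M] [Module 𝕜 M] [Module A M] [IsScalarTower 𝕜 A M]

theorem act_sq {x : A} (hx : x * x = 0) (m : M) : act 𝕜 x M (act 𝕜 x M m) = 0 := by
  change x • x • m = 0
  rw [← mul_smul, hx, zero_smul]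

theorem act_comm {x y : A} (hxy : x * y = y * x) (m : M) : act 𝕜 x M (act 𝕜 y M m) =
    act 𝕜 y M (act 𝕜 x M m) := by
  change x • y • m = y • x • m
  rw [← mul_smul, hxy, mul_smul]

end Acts

variable {x y}

/-- The `z`-exact modules form a localizing class. -/
theorem isLocalizing_zEx [CharP 𝕜 2] (hx : x * x = 0) (hy : y * y = 0) (hxy : x * y = y * x)
    (hA : ∃ h : A →ₗ[𝕜] A, (∀ a, x * h a + h (x * a) = a) ∧ (∀ a, y * h a + h (y * a) = 0)) :
    IsLocalizing A (fun M => ZExMod 𝕜 x y M) := by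
  have two : ∀ (L M N : ModuleCat.{0} A) (f : L →ₗ[A] M) (g : M →ₗ[A] N),
      Function.Injective f → Function.Exact f g → Function.Surjective g →
      (ZExMod 𝕜 x y L → ZExMod 𝕜 x y M → ZExMod 𝕜 x y N) ∧
      (ZExMod 𝕜 x y L → ZExMod 𝕜 x y N → ZExMod 𝕜 x y M) ∧
      (ZExMod 𝕜 x y M → ZExMod 𝕜 x y N → ZExMod 𝕜 x y L) := by
    intro L M N f g hf hfg hg
    letI : Module 𝕜 L := Module.compHom L (algebraMap 𝕜 A)
    have : IsScalarTower 𝕜 A L := compHom_tower 𝕜 L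
    letI : Module 𝕜 M := Module.compHom M (algebraMap 𝕜 A)
    have : IsScalarTower 𝕜 A M := compHom_tower 𝕜 M
    letI : Module 𝕜 N := Module.compHom N (algebraMap 𝕜 A)
    have : IsScalarTower 𝕜 A N := compHom_tower 𝕜 N
    exact zEx_two_of_three 𝕜 (act 𝕜 x L) (act 𝕜 y L) (act 𝕜 x M)
      (act 𝕜 y M) (act 𝕜 x N) (act 𝕜 y N) (f.restrictScalars 𝕜)
      (g.restrictScalars 𝕜) (act_sq 𝕜 L hx) (act_sq 𝕜 L hy) (act_comm 𝕜 L hxy) (act_sq 𝕜 M hx)
      (act_sq 𝕜 M hy) (act_comm 𝕜 M hxy) (fun m => f.map_smul _ m) (fun m => f.map_smul _ m)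
      (fun m => g.map_smul _ m) (fun m => g.map_smul _ m) hf hfg hg
  refine ⟨?_, ?_, ?_, ?_, ?_⟩
  · intro P hP
    letI : Module 𝕜 P := Module.compHom P (algebraMap 𝕜 A)
    have : IsScalarTower 𝕜 A P := compHom_tower 𝕜 P
    obtain ⟨h, h1, h2⟩ := exists_homotopy 𝕜 x y hA P
    exact zEx_of_homotopy 𝕜 (act 𝕜 x P) (act 𝕜 y P) h h1 h2
  · intro L M N f g hf hfg hg
    exact (two L M N f g hf hfg hg).1
  · intro L M N f g hf hfg hg
    exact (two L M N f g hf hfg hg).2.1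
  · intro L M N f g hf hfg hg
    exact (two L M N f g hf hfg hg).2.2
  · intro ι M hM
    classical
    letI : ∀ i, Module 𝕜 (M i) := fun i => Module.compHom (M i) (algebraMap 𝕜 A)
    have : ∀ i, IsScalarTower 𝕜 A (M i) := fun i => compHom_tower 𝕜 (M i)
    have : IsScalarTower 𝕜 A (⨁ i, M i) := by
      refine ⟨fun r d m => ?_⟩
      ext i
      simp
    change ZExMod 𝕜 x y (⨁ i, M i)
    rw [zExMod_iff]
    exact zEx_directSum 𝕜 (fun i => M i) (fun i => act 𝕜 x (M i))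
      (fun i => act 𝕜 y (M i)) hM

/-! ## The infinite-dimensional module -/

/-- The algebra homomorphism `𝕜[ε] → 𝕜(t)[ε]`. -/
noncomputable def psi : DualNumber 𝕜 →ₐ[𝕜] DualNumber (RatFunc 𝕜) :=
  DualNumber.lift ⟨⟨Algebra.ofId 𝕜 _, ε⟩, by
    constructor
    · simp
    · intro a
      exact (Algebra.commutes a _).symm⟩

theorem psi_eps : psi 𝕜 ε = ε := by simp [psi]

theorem psi_eq (h : DualNumber 𝕜) : psi 𝕜 h = h.fst • 1 + h.snd • ε := by
  conv_lhs => rw [decomp 𝕜 h]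
  rw [map_add, map_smul, map_smul, map_one, psi_eps]

variable {𝕜}

/-- The infinite-dimensional module `𝕜(t)[ε]`, on which `A` acts through an algebra homomorphism to
`𝕜(t)[ε]`. -/
def XM (_ : A →ₐ[𝕜] DualNumber (RatFunc 𝕜)) : Type := DualNumber (RatFunc 𝕜)

variable (φ : A →ₐ[𝕜] DualNumber (RatFunc 𝕜))

noncomputable instance : AddCommGroup (XM φ) :=
  inferInstanceAs (AddCommGroup (DualNumber (RatFunc 𝕜)))

noncomputable instance : Module 𝕜 (XM φ) :=
  inferInstanceAs (Module 𝕜 (DualNumber (RatFunc 𝕜)))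

noncomputable instance : Module A (XM φ) :=
  Module.compHom (DualNumber (RatFunc 𝕜)) φ.toRingHom

theorem smul_XM (d : A) (m : XM φ) :
    (d • m : XM φ) = (φ d * (show DualNumber (RatFunc 𝕜) from m) :
      DualNumber (RatFunc 𝕜)) := rfl

instance : IsScalarTower 𝕜 A (XM φ) := by
  refine ⟨fun r d m => ?_⟩
  rw [smul_XM, map_smul, smul_mul_assoc]
  rfl

/-- The functional `c ⊗ m ↦ c m.snd`. -/
noncomputable def mu : (RatFunc 𝕜 ⊗[𝕜] XM φ) →ₗ[𝕜] RatFunc 𝕜 :=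
  LinearMap.mul' 𝕜 (RatFunc 𝕜) ∘ₗ
    LinearMap.lTensor (RatFunc 𝕜)
      ((TrivSqZeroExt.sndHom (RatFunc 𝕜) (RatFunc 𝕜)).restrictScalars 𝕜 : XM φ →ₗ[𝕜] RatFunc 𝕜)

theorem mu_tmul (c : RatFunc 𝕜) (m : XM φ) :
    mu φ (c ⊗ₜ m) = c * (show DualNumber (RatFunc 𝕜) from m).snd := rfl

theorem not_zEx_XM [CharP 𝕜 2] (φx : φ x = ε)
    (φy : φ y = TrivSqZeroExt.inr (RatFunc.X : RatFunc 𝕜)⁻¹) : ¬ ZExMod 𝕜 x y (XM φ) := by
  rw [zExMod_iff]
  intro hz
  have hmu : ∀ m, mu φ (zop 𝕜 (act 𝕜 x (XM φ)) (act 𝕜 y (XM φ)) m) = 0 := by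
    intro m
    induction m with
    | zero => simp
    | tmul c m =>
      rw [zop_tmul, map_add, mu_tmul, mu_tmul]
      change c * (φ x * (show DualNumber (RatFunc 𝕜) from m)).snd +
        RatFunc.X * c * (φ y * (show DualNumber (RatFunc 𝕜) from m)).snd = 0
      rw [φx, φy, DualNumber.snd_mul, DualNumber.snd_mul, fst_eps, snd_eps,
        TrivSqZeroExt.fst_inr, TrivSqZeroExt.snd_inr, zero_mul, zero_add, zero_add, one_mul]
      have hX : (RatFunc.X : RatFunc 𝕜) ≠ 0 := RatFunc.X_ne_zero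
      have e : ∀ a : RatFunc 𝕜, c * a + RatFunc.X * c * (RatFunc.X⁻¹ * a) = c * a + c * a := by
        intro a
        rw [mul_comm RatFunc.X c, mul_assoc c, ← mul_assoc RatFunc.X, mul_inv_cancel₀ hX, one_mul]
      rw [e, ← two_smul 𝕜, CharTwo.two_eq_zero, zero_smul]
    | add a b ha hb => rw [map_add, map_add, ha, hb, add_zero]
  obtain ⟨m', hm'⟩ := hz ((1 : RatFunc 𝕜) ⊗ₜ[𝕜] (show XM φ from (ε : DualNumber (RatFunc 𝕜)))) (by
    rw [zop_tmul]
    have e1 : act 𝕜 x (XM φ) (show XM φ from (ε : DualNumber (RatFunc 𝕜))) = 0 := by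
      change φ x * (ε : DualNumber (RatFunc 𝕜)) = 0
      rw [φx]
      simp
    have e2 : act 𝕜 y (XM φ) (show XM φ from (ε : DualNumber (RatFunc 𝕜))) = 0 := by
      change φ y * (ε : DualNumber (RatFunc 𝕜)) = 0
      rw [φy]
      ext <;> simp
    rw [e1, e2, TensorProduct.tmul_zero, TensorProduct.tmul_zero, add_zero])
  have h1 := hmu m'
  rw [hm', mu_tmul] at h1
  have h2 : (ε : DualNumber (RatFunc 𝕜)).snd = 1 := snd_eps
  change 1 * (ε : DualNumber (RatFunc 𝕜)).snd = 0 at h1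
  rw [h2] at h1
  simp at h1

/-- `𝕜(t)[ε]` is projective over `𝕜[ε]`. -/
theorem projective_XM [CharP 𝕜 2] (j : DualNumber 𝕜 →ₐ[𝕜] A) (hj : ∀ h, φ (j h) = psi 𝕜 h) :
    Module.Projective (DualNumber 𝕜)
      ((ModuleCat.restrictScalars (j : DualNumber 𝕜 →+* A)).obj (ModuleCat.of A (XM φ))) := by
  set R := (ModuleCat.restrictScalars (j : DualNumber 𝕜 →+* A)).obj (ModuleCat.of A (XM φ)) with hR
  have hsm : ∀ (h : DualNumber 𝕜) (m : R),
      (show DualNumber (RatFunc 𝕜) from (h • m)) =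
        psi 𝕜 h * (show DualNumber (RatFunc 𝕜) from m) := by
    intro h m
    rw [← hj]
    rfl
  let i : R →ₗ[DualNumber 𝕜] (DualNumber 𝕜 ⊗[𝕜] RatFunc 𝕜) :=
    { toFun := fun m => 1 ⊗ₜ (show DualNumber (RatFunc 𝕜) from m).fst +
        ε ⊗ₜ (show DualNumber (RatFunc 𝕜) from m).snd
      map_add' := by
        intro m n
        change (1 : DualNumber 𝕜) ⊗ₜ[𝕜] ((show DualNumber (RatFunc 𝕜) from m) +
          (show DualNumber (RatFunc 𝕜) from n)).fst + ε ⊗ₜ[𝕜]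
          ((show DualNumber (RatFunc 𝕜) from m) + (show DualNumber (RatFunc 𝕜) from n)).snd = _
        rw [TrivSqZeroExt.fst_add, TrivSqZeroExt.snd_add, TensorProduct.tmul_add,
          TensorProduct.tmul_add]
        abel
      map_smul' := by
        intro h m
        rw [hsm, RingHom.id_apply, smul_add, TensorProduct.smul_tmul', TensorProduct.smul_tmul',
          psi_eq]
        have e1 : h • (1 : DualNumber 𝕜) = h.fst • (1 : DualNumber 𝕜) + h.snd • ε := by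
          rw [smul_eq_mul, mul_one]
          exact decomp 𝕜 h
        have e2 : h • (ε : DualNumber 𝕜) = h.fst • (ε : DualNumber 𝕜) := by
          ext <;> simp
        rw [e1, e2]
        simp only [add_mul, smul_mul_assoc, one_mul, TrivSqZeroExt.fst_add,
          TrivSqZeroExt.snd_add, TrivSqZeroExt.fst_smul, TrivSqZeroExt.snd_smul,
          TrivSqZeroExt.fst_mul, DualNumber.snd_mul, fst_eps, snd_eps, zero_mul, smul_zero,
          add_zero, zero_add, TensorProduct.tmul_add, TensorProduct.add_tmul,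
          TensorProduct.tmul_smul, TensorProduct.smul_tmul']
        abel }
  let s : (DualNumber 𝕜 ⊗[𝕜] RatFunc 𝕜) →ₗ[DualNumber 𝕜] R :=
    { toFun := fun t => (show R from
        (Algebra.TensorProduct.productMap (psi 𝕜) (TrivSqZeroExt.inlAlgHom 𝕜 (RatFunc 𝕜) _) t :
        DualNumber (RatFunc 𝕜)))
      map_add' := by
        intro a b
        exact map_add _ a b
      map_smul' := by
        intro h t
        have e : h • t = (h ⊗ₜ[𝕜] (1 : RatFunc 𝕜)) * t := by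
          induction t with
          | zero => simp
          | tmul a c =>
            rw [TensorProduct.smul_tmul', Algebra.TensorProduct.tmul_mul_tmul, one_mul,
              smul_eq_mul]
          | add a b ha hb => rw [smul_add, mul_add, ha, hb]
        have e2 := hsm h (show R from
          (Algebra.TensorProduct.productMap (psi 𝕜) (TrivSqZeroExt.inlAlgHom 𝕜 (RatFunc 𝕜) _) t :
          DualNumber (RatFunc 𝕜)))
        refine Eq.trans ?_ e2.symm
        rw [e, map_mul, Algebra.TensorProduct.productMap_apply_tmul, map_one, mul_one] }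
  have hsi : s ∘ₗ i = LinearMap.id := by
    apply LinearMap.ext
    intro m
    change (Algebra.TensorProduct.productMap (psi 𝕜) (TrivSqZeroExt.inlAlgHom 𝕜 (RatFunc 𝕜) _)
      (1 ⊗ₜ (show DualNumber (RatFunc 𝕜) from m).fst +
        ε ⊗ₜ (show DualNumber (RatFunc 𝕜) from m).snd)) = (show DualNumber (RatFunc 𝕜) from m)
    rw [map_add, Algebra.TensorProduct.productMap_apply_tmul,
      Algebra.TensorProduct.productMap_apply_tmul, map_one, psi_eps]
    ext <;> simp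
  exact Module.Projective.of_split i s hsi

/-- Finite-dimensional modules with projective restriction to `𝕜[ε]` are `z`-exact. -/
theorem zEx_of_projective_finDim [CharP 𝕜 2] (hx : x * x = 0) (hy : y * y = 0)
    (hxy : x * y = y * x) (j : DualNumber 𝕜 →ₐ[𝕜] A) (hj : j ε = x) (M : ModuleCat.{0} A)
    (h1 : Module.Projective (DualNumber 𝕜)
      ((ModuleCat.restrictScalars (j : DualNumber 𝕜 →+* A)).obj M))
    (h2 : Module.Finite 𝕜 ((ModuleCat.restrictScalars (algebraMap 𝕜 A)).obj M)) :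
    ZExMod 𝕜 x y M := by
  letI : Module 𝕜 M := Module.compHom M (algebraMap 𝕜 A)
  have : IsScalarTower 𝕜 A M := compHom_tower 𝕜 M
  have : Module.Finite 𝕜 M := h2
  letI : Module (DualNumber 𝕜) M := Module.compHom M (j : DualNumber 𝕜 →+* A)
  have : Module.Projective (DualNumber 𝕜) M := h1
  have : IsScalarTower 𝕜 (DualNumber 𝕜) M := by
    refine ⟨fun r d m => ?_⟩
    change (j (r • d)) • m = r • (j d) • m
    rw [map_smul, smul_assoc]
  obtain ⟨h, h3, -⟩ := exists_homotopy 𝕜 (ε : DualNumber 𝕜) 0 (exists_homotopy_H 𝕜) M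
  have h4 : ∀ m, x • h m + h (x • m) = m := by
    intro m
    rw [← hj]
    exact h3 m
  exact zEx_of_finite 𝕜 (act 𝕜 x M) (act 𝕜 y M) h (act_sq 𝕜 M hx) (act_sq 𝕜 M hy)
    (act_comm 𝕜 M hxy) h4

end Final

/-- **MP_ae772b_al**, full answer: over every field `𝕜` of characteristic two there is a
finite-dimensional Hopf algebra `H` such that the kernel of the restriction functor
`StMod(D(H)) → StMod(H)` is not the localizing subcategory generated by its finite-dimensional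
objects. -/
theorem result (𝕜 : Type) [Field 𝕜] [CharP 𝕜 2] :
    ∃ (H : Type) (_ : Ring H) (_ : HopfAlgebra 𝕜 H) (_ : Module.Finite 𝕜 H),
      ∃ X : ModuleCat.{0} (DrinfeldDouble 𝕜 H), InKernel 𝕜 H X ∧
        ¬ Loc (DrinfeldDouble 𝕜 H) (fun M => InKernel 𝕜 H M ∧ IsFinDim 𝕜 H M) X := by
  obtain ⟨φ, φx, φy⟩ := exists_lift 𝕜 (DualNumber (RatFunc 𝕜)) DualNumber.eps
    (TrivSqZeroExt.inr (RatFunc.X : RatFunc 𝕜)⁻¹) (by simp) (by simp) (mul_comm _ _)
  refine ⟨DualNumber 𝕜, inferInstance, instHopf 𝕜, ?_, ModuleCat.of _ (XM φ), ?_, ?_⟩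
  · exact inferInstanceAs (Module.Finite 𝕜 (𝕜 × 𝕜))
  · apply projective_XM φ (toDouble 𝕜 (DualNumber 𝕜))
    intro h
    rw [toDouble_eq, map_add, map_smul, map_smul, map_one, φx, psi_eq]
  · intro h
    exact not_zEx_XM φ φx φy (h _ (isLocalizing_zEx 𝕜 (xx 𝕜) (yy 𝕜) (xy 𝕜)
      (exists_homotopy_D 𝕜)) (fun T hT =>
      zEx_of_projective_finDim (xx 𝕜) (yy 𝕜) (xy 𝕜) (toDouble 𝕜 (DualNumber 𝕜)) rfl T hT.1 hT.2))

end Pool.Agent.Results.MP_ae772b_al.KernelNotCompactlyGenerated
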